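import Pool.Agent.Y874.TP2.Stm
import Pool.Agent.Y874.TP.Basic

/-!
# Project TP2: the picture of a diagram with the circles of its removed triple points
-/

namespace Pool.Agent.Y759.TP2

open Pool.Agent.Y468.SR
open Pool.Agent.Y874.TP (colour TriAt NullV Tri TC word4 passes_append' TC_cons TC_nil)
open Pool.Agent.Y874.TP2

theorem flatten_fst (D : Code) : (D.map Prod.fst).flatten = passes D := by
  unfold passes
  rw [List.flatMap_def]

theorem dart_iff (D : Code) (Ts : List Tri) (m : ℕ → ℕ) (x : Pass) :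
    (pic D Ts m).dart x ↔ x ∈ passes (D ++ TC Ts) := by
  unfold Pic.dart pic
  simp only [flatten_fst, passes_append', List.mem_append]

/-- the property of a word of length four -/
def Four (q : List Pass) : Prop := ∃ x₀ x₁ x₂ x₃, q = [x₀, x₁, x₂, x₃] ∧ sg x₂ = -sg x₀ ∧
    sg x₃ = -sg x₁ ∧ kap x₂ = kap x₀ ∧ kap x₃ = kap x₁ ∧ kap x₀ ≠ kap x₁

theorem four_word (e : Bool) (p₁ p₂ q₁ q₂ : Pass) (h1 : sg p₂ = -sg p₁) (h2 : sg q₂ = -sg q₁)
    (h3 : kap p₂ = kap p₁) (h4 : kap q₂ = kap q₁) (h5 : kap p₁ ≠ kap q₁) :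
    Four (word4 e p₁ p₂ q₁ q₂) := by
  cases e
  · refine ⟨p₂, q₂, p₁, q₁, rfl, ?_, ?_, h3.symm, h4.symm, ?_⟩
    · rw [h1, neg_neg]
    · rw [h2, neg_neg]
    · rw [h3, h4]
      exact h5
  · refine ⟨q₂, p₂, q₁, p₁, rfl, ?_, ?_, h4.symm, h3.symm, ?_⟩
    · rw [h2, neg_neg]
    · rw [h1, neg_neg]
    · rw [h3, h4]
      exact h5.symm

theorem sg_pos (c c' : ℕ) (o s : Bool) : sg ⟨c', o, s⟩ = -sg ⟨c, o, !s⟩ := by
  unfold sg
  cases o <;> cases s <;> simp

theorem sg_mate_pos (c c' : ℕ) (o s : Bool) :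
    sg (⟨c', o, s⟩ : Pass).mate = -sg (⟨c, o, !s⟩ : Pass).mate := by
  unfold sg Pass.mate
  cases o <;> cases s <;> simp

theorem kap_col (c c' : ℕ) (o s s' : Bool) (h : colour c' = colour c) :
    kap ⟨c', o, s⟩ = kap ⟨c, o, s'⟩ := by
  unfold kap lc
  rw [h]

theorem kap_mate_col (c c' : ℕ) (o s s' : Bool) (h : colour c' = colour c) :
    kap (⟨c', o, s⟩ : Pass).mate = kap (⟨c, o, s'⟩ : Pass).mate := by
  unfold kap lc Pass.mate
  rw [h]

theorem four_tri (T : Tri) (hc : T.Col) (hd : ∀ e ∈ tprs T, ¬e.IsDiag) :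
    Four T.wi ∧ Four T.wj ∧ Four T.wk := by
  obtain ⟨h1, h2, h3⟩ := hc
  unfold tprs at hd
  have d1 := hd _ (by simp : s(kap T.pa₁, kap T.pb₁) ∈ _)
  have d2 := hd s(kap T.pa₁.mate, kap T.pc₁) (by simp)
  have d3 := hd s(kap T.pb₁.mate, kap T.pc₁.mate) (by simp)
  rw [Sym2.mk_isDiag_iff] at d1 d2 d3
  refine ⟨?_, ?_, ?_⟩
  · exact four_word _ _ _ _ _ (sg_pos _ _ _ _) (sg_pos _ _ _ _) (kap_col _ _ _ _ _ h1)
      (kap_col _ _ _ _ _ h2) d1
  · exact four_word _ _ _ _ _ (sg_mate_pos _ _ _ _) (sg_pos _ _ _ _) (kap_mate_col _ _ _ _ _ h1)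
      (kap_col _ _ _ _ _ h3) d2
  · exact four_word _ _ _ _ _ (sg_mate_pos _ _ _ _) (sg_mate_pos _ _ _ _)
      (kap_mate_col _ _ _ _ _ h2) (kap_mate_col _ _ _ _ _ h3) d3

/-- `e` is the pair of the colours of the word `q` -/
def RR (q : List Pass) (e : Sym2 (ℕ × Bool)) : Prop :=
  Four q ∧ ∀ a ∈ q, ∀ b ∈ q, kap a ≠ kap b → s(kap a, kap b) = e

theorem rr_word (e : Bool) (p₁ p₂ q₁ q₂ : Pass) (h0 : Four (word4 e p₁ p₂ q₁ q₂))
    (h3 : kap p₂ = kap p₁) (h4 : kap q₂ = kap q₁) :
    RR (word4 e p₁ p₂ q₁ q₂) s(kap p₁, kap q₁) := by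
  refine ⟨h0, ?_⟩
  have hk : ∀ a ∈ word4 e p₁ p₂ q₁ q₂, kap a = kap p₁ ∨ kap a = kap q₁ := by
    intro a ha
    cases e <;> simp only [word4, Bool.false_eq_true, if_false, if_true, List.mem_cons,
      List.not_mem_nil, or_false] at ha <;> rcases ha with rfl | rfl | rfl | rfl <;> tauto
  intro a ha b hb hab
  rcases hk a ha with h1 | h1 <;> rcases hk b hb with h2 | h2
  · exact absurd (h1.trans h2.symm) hab
  · rw [h1, h2]
  · rw [h1, h2, Sym2.eq_swap]
  · exact absurd (h1.trans h2.symm) hab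

theorem rr_tri (T : Tri) (hc : T.Col) (hd : ∀ e ∈ tprs T, ¬e.IsDiag) :
    List.Forall₂ RR [T.wi, T.wj, T.wk] (tprs T) := by
  obtain ⟨f1, f2, f3⟩ := four_tri T hc hd
  obtain ⟨h1, h2, h3⟩ := hc
  unfold tprs
  refine List.Forall₂.cons ?_ (List.Forall₂.cons ?_ (List.Forall₂.cons ?_ List.Forall₂.nil))
  · exact rr_word _ _ _ _ _ f1 (kap_col _ _ _ _ _ h1) (kap_col _ _ _ _ _ h2)
  · exact rr_word _ _ _ _ _ f2 (kap_mate_col _ _ _ _ _ h1) (kap_col _ _ _ _ _ h3)
  · exact rr_word _ _ _ _ _ f3 (kap_mate_col _ _ _ _ _ h2) (kap_mate_col _ _ _ _ _ h3)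

theorem rr_all (Ts : List Tri) (hc : ∀ T ∈ Ts, T.Col) (hd : ∀ e ∈ Ts.flatMap tprs, ¬e.IsDiag) :
    List.Forall₂ RR ((TC Ts).map Prod.fst) (Ts.flatMap tprs) := by
  induction Ts with
  | nil => exact List.Forall₂.nil
  | cons T Ts ih =>
    rw [TC_cons, List.map_append, List.flatMap_cons]
    refine List.rel_append ?_ ?_
    · exact rr_tri T (hc T (by simp)) fun e he => hd e (by
        rw [List.flatMap_cons, List.mem_append]
        exact Or.inl he)
    · exact ih (fun T' hT' => hc T' (by simp [hT'])) fun e he => hd e (by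
        rw [List.flatMap_cons, List.mem_append]
        exact Or.inr he)

theorem rr_mem {α β : Type} {R : α → β → Prop} {l : List α} {l' : List β}
    (h : List.Forall₂ R l l') {q : α} (hq : q ∈ l) : ∃ e ∈ l', R q e := by
  induction h with
  | nil => exact absurd hq List.not_mem_nil
  | cons h1 h2 ih =>
    rcases List.mem_cons.1 hq with rfl | hq
    · exact ⟨_, by simp, h1⟩
    · obtain ⟨e, he, h3⟩ := ih hq
      exact ⟨e, by simp [he], h3⟩

theorem rr_uniq {α β : Type} {R : α → β → Prop} {l : List α} {l' : List β}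
    (h : List.Forall₂ R l l') (hn : l'.Nodup) {q q' : α} (hq : q ∈ l) (hq' : q' ∈ l) (e : β)
    (h1 : ∀ f, R q f → f = e) (h2 : ∀ f, R q' f → f = e) : q = q' := by
  induction h with
  | nil => exact absurd hq List.not_mem_nil
  | @cons x y l l' hxy hll ih =>
    rw [List.nodup_cons] at hn
    rcases List.mem_cons.1 hq with rfl | hq1
    · rcases List.mem_cons.1 hq' with rfl | hq2
      · rfl
      · obtain ⟨f, hf, h3⟩ := rr_mem hll hq2
        have h4 := h1 _ hxy
        have h5 := h2 _ h3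
        exact absurd (h4.trans h5.symm ▸ hf) hn.1
    · rcases List.mem_cons.1 hq' with rfl | hq2
      · obtain ⟨f, hf, h3⟩ := rr_mem hll hq1
        have h4 := h2 _ hxy
        have h5 := h1 _ h3
        exact absurd (h4.trans h5.symm ▸ hf) hn.1
      · exact ih hn.2 hq1 hq2

theorem part_mem {P : List Pass} {m : ℕ → ℕ} (hw : WF P) (hm : Matching P m) {p : Pass}
    (hp : p ∈ P) : part m p ∈ P := by
  unfold part
  split_ifs with h
  · exact hw.1 p hp
  · obtain ⟨q, hq, h1, h2, h3⟩ := hm p hp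
    have h4 : q.isPos = !p.isPos := h3 (by rw [h1]; exact h)
    by_cases h5 : q.isOver = p.isOver
    · have : q = ⟨m p.crossing, p.isOver, !p.isPos⟩ := by
        obtain ⟨c, o, s⟩ := q
        simp only at h1 h4 h5
        rw [h1, h4, h5]
      rw [← this]
      exact hq
    · have h6 : q.mate = ⟨m p.crossing, p.isOver, !p.isPos⟩ := by
        obtain ⟨c, o, s⟩ := q
        simp only at h1 h4 h5
        unfold Pass.mate
        simp only
        rw [h1, h4]
        congr 1
        revert h5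
        cases o <;> cases p.isOver <;> simp
      rw [← h6]
      exact hw.1 q hq

theorem m_invol {P : List Pass} {m : ℕ → ℕ} (hm : Matching P m) {p : Pass} (hp : p ∈ P) :
    m (m p.crossing) = p.crossing := by
  obtain ⟨q, -, h1, h2, -⟩ := hm p hp
  rw [← h1, h2]

theorem part_invol {P : List Pass} {m : ℕ → ℕ} (hm : Matching P m) {p : Pass} (hp : p ∈ P) :
    part m (part m p) = p := by
  have h0 := m_invol hm hp
  by_cases h : m p.crossing = p.crossing
  · have e1 : part m p = p.mate := by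
      unfold part
      rw [if_pos h]
    have e2 : part m p.mate = p.mate.mate := by
      unfold part
      exact if_pos h
    rw [e1, e2, mate_mate']
  · have e1 : part m p = ⟨m p.crossing, p.isOver, !p.isPos⟩ := by
      unfold part
      rw [if_neg h]
    have e2 : part m ⟨m p.crossing, p.isOver, !p.isPos⟩ =
        ⟨m (m p.crossing), p.isOver, !!p.isPos⟩ := by
      unfold part
      refine if_neg ?_
      simp only
      rw [h0]
      exact fun h' => h h'.symm
    rw [e1, e2, h0, Bool.not_not]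

theorem sg_part (m : ℕ → ℕ) (p : Pass) : sg (part m p) = -sg p := by
  obtain ⟨c, o, s⟩ := p
  unfold part
  split_ifs with h
  · unfold sg Pass.mate
    cases o <;> cases s <;> simp
  · unfold sg
    cases o <;> cases s <;> simp

theorem kap_part {P : List Pass} {m : ℕ → ℕ} (hc : CM P m) {p : Pass} (hp : p ∈ P) :
    kap (part m p) = kap p := by
  obtain ⟨h1, h2⟩ := hc p hp
  unfold part
  split_ifs with h
  · have h3 : colour p.crossing % 2 = 0 := by
      by_contra h3
      exact h2 h3 h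
    unfold kap lc Pass.mate
    simp only [h3]
    simp
  · unfold kap lc
    simp only [h1]

/-- the picture of a diagram with circles is good -/
theorem inst : S_FLOW → S_INST := by
  intro hflow D Ts m hnd hwf hinv hcol hdiag hnodup
  obtain ⟨hm, hcm, hnull⟩ := hinv
  have hRR := rr_all Ts hcol hdiag
  have hfl : ∀ f g : Pass → ℤ, (pic D Ts m).Flow f → (pic D Ts m).Flow g →
      (∀ C ∈ D, (C.1.map f).sum = 0) ∧
        ((D ++ TC Ts).map fun C => om f g C.1).sum = 0 := by
    intro f g hf hg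
    refine hflow D (TC Ts) m f g hnd hwf hm hnull ?_ ?_
    · intro p hp
      have hp' := (dart_iff D Ts m p).2 hp
      exact ⟨hf.1 p hp', hg.1 p hp'⟩
    · intro C hC
      have hC' : C.1 ∈ (pic D Ts m).Q := List.mem_map_of_mem hC
      exact ⟨hf.2 _ hC', hg.2 _ hC'⟩
  refine ⟨?_, ?_, ?_, ?_, ?_, ?_, ?_, ?_, ?_, ?_⟩
  · have h1 : (pic D Ts m).B.flatten ++ (pic D Ts m).Q.flatten = passes (D ++ TC Ts) := by
      rw [passes_append']
      exact congrArg₂ _ (flatten_fst D) (flatten_fst (TC Ts))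
    rw [h1]
    exact hwf.nodup
  · intro q hq
    obtain ⟨e, -, h1, -⟩ := rr_mem hRR hq
    exact h1
  · intro x hx
    rw [dart_iff] at hx ⊢
    exact part_mem hwf hm hx
  · intro x hx
    rw [dart_iff] at hx
    exact part_invol hm hx
  · intro x _
    show sg x = 1 ∨ sg x = -1
    unfold sg
    split_ifs
    · exact Or.inl rfl
    · exact Or.inr rfl
  · intro x _
    exact sg_part m x
  · intro x hx
    rw [dart_iff] at hx
    exact kap_part hcm hx
  · intro q hq q' hq' a ha b hb a' ha' b' hb' hab h1 h2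
    have hab' : kap a ≠ kap b := hab
    have h1' : kap a' = kap a := h1
    have h2' : kap b' = kap b := h2
    refine rr_uniq hRR hnodup hq hq' s(kap a, kap b) ?_ ?_
    · intro f hf
      exact (hf.2 a ha b hb hab').symm
    · intro f hf
      have h3 := hf.2 a' ha' b' hb' (by rw [h1', h2']; exact hab')
      rw [h1', h2'] at h3
      exact h3.symm
  · intro f hf W hW
    obtain ⟨C, hC, rfl⟩ := List.mem_map.1 hW
    exact (hfl f f hf hf).1 C hC
  · intro f g hf hg
    have h1 := (hfl f g hf hg).2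
    have h2 : ((pic D Ts m).B ++ (pic D Ts m).Q).map (om f g) =
        (D ++ TC Ts).map fun C => om f g C.1 := by
      rw [List.map_append, List.map_append]
      refine congrArg₂ _ ?_ ?_
      · exact List.map_map
      · exact List.map_map
    rw [h2]
    exact h1

end Pool.Agent.Y759.TP2
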